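import Mathlib

open Finset

namespace Pool.Agent.Results.MP_82263f_pr.CensoringFails

section Generic

variable {V : Type} [Fintype V] [DecidableEq V] {q : ℕ} {K : Type} [Field K]

/-- the probability vector proportional to the weights `w`. -/
def gibbs (w : (V → Fin q) → K) (σ : V → Fin q) : K := w σ / ∑ τ, w τ

/-- the heat-bath kernel `P_v(τ, σ)`: keep the spins off `v`, resample the spin at `v` from its
conditional law under the Gibbs vector given the other spins. -/
def heatBath (w : (V → Fin q) → K) (v : V) (τ σ : V → Fin q) : K :=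
  if ∀ u, u ≠ v → σ u = τ u then gibbs w σ / ∑ c : Fin q, gibbs w (Function.update τ v c) else 0

/-- `μ P_v`. -/
def step (w : (V → Fin q) → K) (μ : (V → Fin q) → K) (v : V) (σ : V → Fin q) : K :=
  ∑ τ, μ τ * heatBath w v τ σ

/-- the point mass. -/
def dirac (g σ : V → Fin q) : K := if σ = g then 1 else 0

/-- `δ_g P_{v₁} ⋯ P_{v_T}` for the list `[v₁, …, v_T]`. -/
def law (w : (V → Fin q) → K) (g : V → Fin q) (l : List V) : (V → Fin q) → K :=
  l.foldl (step w) (dirac g)

/-- reduced form of a step. -/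
def step' (w : (V → Fin q) → K) (μ : (V → Fin q) → K) (v : V) (σ : V → Fin q) : K :=
  (∑ c : Fin q, μ (Function.update σ v c)) * (w σ / ∑ c : Fin q, w (Function.update σ v c))

lemma step_eq (w : (V → Fin q) → K) (hw : ∑ τ, w τ ≠ 0) (μ : (V → Fin q) → K) (v : V) :
    step w μ v = step' w μ v := by
  funext σ
  unfold step step' heatBath
  rw [Finset.sum_mul]
  simp only [mul_ite, mul_zero]
  rw [← Finset.sum_filter]
  refine Finset.sum_nbij' (fun τ => τ v) (fun c => Function.update σ v c) ?_ ?_ ?_ ?_ ?_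
  · intro τ _; exact mem_univ _
  · intro c _
    rw [mem_filter]
    exact ⟨mem_univ _, fun u hu => (Function.update_of_ne hu _ _).symm⟩
  · intro τ hτ
    rw [mem_filter] at hτ
    funext u
    by_cases hu : u = v
    · subst hu; simp
    · simp [Function.update_of_ne hu, hτ.2 u hu]
  · intro c _; simp
  · intro τ hτ
    rw [mem_filter] at hτ
    have h1 : Function.update σ v (τ v) = τ := by
      funext u
      by_cases hu : u = v
      · subst hu; simp
      · simp [Function.update_of_ne hu, hτ.2 u hu]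
    have h2 : ∀ c : Fin q, Function.update τ v c = Function.update σ v c := by
      intro c
      funext u
      by_cases hu : u = v
      · subst hu; simp
      · simp [Function.update_of_ne hu, hτ.2 u hu]
    rw [h1]
    congr 1
    unfold gibbs
    simp_rw [h2]
    rw [← Finset.sum_div, div_div_div_cancel_right₀ hw]

/-- reduced form of the law. -/
def law' (w : (V → Fin q) → K) (g : V → Fin q) (l : List V) : (V → Fin q) → K :=
  l.foldl (step' w) (dirac g)

lemma law_eq (w : (V → Fin q) → K) (hw : ∑ τ, w τ ≠ 0) (g : V → Fin q) (l : List V) :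
    law w g l = law' w g l := by
  unfold law law'
  have : step w = step' w := by
    funext μ v; exact step_eq w hw μ v
  rw [this]

end Generic

section Cast

variable {V : Type} [Fintype V] [DecidableEq V] {q : ℕ}

lemma foldl_cast (w : (V → Fin q) → ℚ) (l : List V) (μ : (V → Fin q) → ℚ) :
    l.foldl (step' (fun σ => ((w σ : ℚ) : ℝ))) (fun σ => ((μ σ : ℚ) : ℝ)) =
      fun σ => ((l.foldl (step' w) μ σ : ℚ) : ℝ) := by
  induction l generalizing μ with
  | nil => rfl
  | cons v l ih =>
    rw [List.foldl_cons, List.foldl_cons, ← ih]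
    congr 1
    funext σ
    simp [step']

lemma law'_cast (w : (V → Fin q) → ℚ) (g : V → Fin q) (l : List V) :
    law' (fun σ => ((w σ : ℚ) : ℝ)) g l = fun σ => ((law' w g l σ : ℚ) : ℝ) := by
  unfold law'
  rw [← foldl_cast]
  congr 1
  funext σ
  unfold dirac
  split_ifs <;> simp

end Cast

/-- total variation distance of two vectors on a finite set: `max_A |μ(A) - ν(A)|`. -/
noncomputable def tvDist {Ω : Type} [Fintype Ω] (μ ν : Ω → ℝ) : ℝ :=
  ⨆ A : Finset Ω, |∑ x ∈ A, μ x - ∑ x ∈ A, ν x|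

lemma tvDist_eq {Ω : Type} [Fintype Ω] [DecidableEq Ω] (μ ν : Ω → ℝ) (h : ∑ x, μ x = ∑ x, ν x) :
    tvDist μ ν = (∑ x, |μ x - ν x|) / 2 := by
  have key : ∀ A : Finset Ω, |∑ x ∈ A, μ x - ∑ x ∈ A, ν x| ≤ (∑ x, |μ x - ν x|) / 2 := by
    intro A
    rw [← Finset.sum_sub_distrib]
    have h0 : ∑ x ∈ A, (μ x - ν x) + ∑ x ∈ Aᶜ, (μ x - ν x) = 0 := by
      rw [Finset.sum_add_sum_compl, Finset.sum_sub_distrib, h, sub_self]
    have h1 : |∑ x ∈ A, (μ x - ν x)| ≤ ∑ x ∈ A, |μ x - ν x| := Finset.abs_sum_le_sum_abs _ _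
    have h2 : |∑ x ∈ Aᶜ, (μ x - ν x)| ≤ ∑ x ∈ Aᶜ, |μ x - ν x| := Finset.abs_sum_le_sum_abs _ _
    have h3 : ∑ x ∈ A, |μ x - ν x| + ∑ x ∈ Aᶜ, |μ x - ν x| = ∑ x, |μ x - ν x| :=
      Finset.sum_add_sum_compl _ _
    have h4 : ∑ x ∈ Aᶜ, (μ x - ν x) = - ∑ x ∈ A, (μ x - ν x) := by linarith
    rw [h4, abs_neg] at h2
    linarith
  apply le_antisymm
  · exact ciSup_le key
  · have hb : BddAbove (Set.range fun A : Finset Ω => |∑ x ∈ A, μ x - ∑ x ∈ A, ν x|) :=
      ⟨_, by rintro _ ⟨A, rfl⟩; exact key A⟩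
    refine le_trans ?_ (le_ciSup hb (univ.filter fun x => ν x < μ x))
    refine le_trans ?_ (le_abs_self _)
    rw [← Finset.sum_sub_distrib]
    have h0 : ∑ x ∈ univ.filter (fun x => ν x < μ x), (μ x - ν x)
        + ∑ x ∈ univ.filter (fun x => ¬ ν x < μ x), (μ x - ν x) = 0 := by
      rw [Finset.sum_filter_add_sum_filter_not, Finset.sum_sub_distrib, h, sub_self]
    have h3 : ∑ x ∈ univ.filter (fun x => ν x < μ x), |μ x - ν x|
        + ∑ x ∈ univ.filter (fun x => ¬ ν x < μ x), |μ x - ν x| = ∑ x, |μ x - ν x| :=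
      Finset.sum_filter_add_sum_filter_not _ _ _
    have h4 : ∑ x ∈ univ.filter (fun x => ν x < μ x), |μ x - ν x| =
        ∑ x ∈ univ.filter (fun x => ν x < μ x), (μ x - ν x) :=
      Finset.sum_congr rfl fun x hx => abs_of_pos (by
        have := (mem_filter.1 hx).2; linarith)
    have h5 : ∑ x ∈ univ.filter (fun x => ¬ ν x < μ x), |μ x - ν x| =
        - ∑ x ∈ univ.filter (fun x => ¬ ν x < μ x), (μ x - ν x) := by
      rw [← Finset.sum_neg_distrib]
      exact Finset.sum_congr rfl fun x hx => abs_of_nonpos (by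
        have := (mem_filter.1 hx).2; linarith)
    rw [h4, h5] at h3
    linarith

/-- number of edges of `G` whose two ends have the same spin. -/
def mono {V : Type} [Fintype V] [DecidableEq V] (G : SimpleGraph V) [DecidableRel G.Adj] {q : ℕ}
    (σ : V → Fin q) : ℕ := (G.edgeFinset.filter fun e => (e.map σ).IsDiag).card

/-- the Potts weight `exp (β · #monochromatic edges)`. -/
noncomputable def pottsWeight {V : Type} [Fintype V] [DecidableEq V] (G : SimpleGraph V)
    [DecidableRel G.Adj] {q : ℕ} (β : ℝ) (σ : V → Fin q) : ℝ := Real.exp (β * mono G σ)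

/-- adjacency list of the counterexample graph: edges 01, 02, 03, 12, 13, 24, 34. -/
def adjB (a b : Fin 5) : Bool :=
  (a, b) ∈ [((0 : Fin 5), (1 : Fin 5)), (0, 2), (0, 3), (1, 2), (1, 3), (2, 4), (3, 4)]

/-- the counterexample graph on `{0,1,2,3,4}` with edges 01, 02, 03, 12, 13, 24, 34. -/
def G5 : SimpleGraph (Fin 5) where
  Adj a b := adjB a b = true ∨ adjB b a = true
  symm := ⟨by intro a b h; tauto⟩
  loopless := ⟨by decide⟩

instance : DecidableRel G5.Adj := fun a b => by unfold G5; infer_instance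

/-- explicit monochromatic edge count. -/
def cnt (σ : Fin 5 → Fin 3) : ℕ :=
  (if σ 0 = σ 1 then 1 else 0) + (if σ 0 = σ 2 then 1 else 0) + (if σ 0 = σ 3 then 1 else 0) +
  (if σ 1 = σ 2 then 1 else 0) + (if σ 1 = σ 3 then 1 else 0) + (if σ 2 = σ 4 then 1 else 0) +
  (if σ 3 = σ 4 then 1 else 0)

lemma mono_G5 : ∀ σ : Fin 5 → Fin 3, mono G5 σ = cnt σ := by
  decide +kernel

/-- integer weight at `exp β = 10`. -/
def wq (σ : Fin 5 → Fin 3) : ℚ := ((10 ^ cnt σ : ℕ) : ℚ)

def g0 : Fin 5 → Fin 3 := fun _ => 0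

def sel {α : Type} (i : Fin 3) (a b c : α) : α :=
  match i with
  | 0 => a
  | 1 => b
  | 2 => c

def A4 (σ : Fin 5 → Fin 3) : ℚ := (sel (σ 0) (sel (σ 1) (sel (σ 2) (sel (σ 3) (sel (σ 4) (mkRat 50 51) (mkRat 1 102) (mkRat 1 102)) 0 0) 0 0) 0 0) 0 0)

def A42 (σ : Fin 5 → Fin 3) : ℚ := (sel (σ 0) (sel (σ 1) (sel (σ 2) (sel (σ 3) (sel (σ 4) (mkRat 25000 25551) (mkRat 50 5661) (mkRat 50 5661)) 0 0) (sel (σ 3) (sel (σ 4) (mkRat 25 25551) (mkRat 5 5661) (mkRat 1 11322)) 0 0) (sel (σ 3) (sel (σ 4) (mkRat 25 25551) (mkRat 1 11322) (mkRat 5 5661)) 0 0)) 0 0) 0 0)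

def A420 (σ : Fin 5 → Fin 3) : ℚ := (sel (σ 0) (sel (σ 1) (sel (σ 2) (sel (σ 3) (sel (σ 4) (mkRat 12500000 12801051) (mkRat 25000 2836161) (mkRat 25000 2836161)) 0 0) (sel (σ 3) (sel (σ 4) (mkRat 2500 2836161) (mkRat 500 628371) (mkRat 50 628371)) 0 0) (sel (σ 3) (sel (σ 4) (mkRat 2500 2836161) (mkRat 50 628371) (mkRat 500 628371)) 0 0)) 0 0) (sel (σ 1) (sel (σ 2) (sel (σ 3) (sel (σ 4) (mkRat 12500 12801051) (mkRat 25 2836161) (mkRat 25 2836161)) 0 0) (sel (σ 3) (sel (σ 4) (mkRat 250 2836161) (mkRat 50 628371) (mkRat 5 628371)) 0 0) (sel (σ 3) (sel (σ 4) (mkRat 25 2836161) (mkRat 1 1256742) (mkRat 5 628371)) 0 0)) 0 0) (sel (σ 1) (sel (σ 2) (sel (σ 3) (sel (σ 4) (mkRat 12500 12801051) (mkRat 25 2836161) (mkRat 25 2836161)) 0 0) (sel (σ 3) (sel (σ 4) (mkRat 25 2836161) (mkRat 5 628371) (mkRat 1 1256742)) 0 0) (sel (σ 3) (sel (σ 4) (mkRat 250 2836161) (mkRat 5 628371) (mkRat 50 628371)) 0 0)) 0 0))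

def A424 (σ : Fin 5 → Fin 3) : ℚ := (sel (σ 0) (sel (σ 1) (sel (σ 2) (sel (σ 3) (sel (σ 4) (mkRat 15695000 16071579) (mkRat 156950 16071579) (mkRat 156950 16071579)) 0 0) (sel (σ 3) (sel (σ 4) (mkRat 6145 6617709) (mkRat 6145 6617709) (mkRat 1229 13235418)) 0 0) (sel (σ 3) (sel (σ 4) (mkRat 6145 6617709) (mkRat 1229 13235418) (mkRat 6145 6617709)) 0 0)) 0 0) 0 0)

def A4201 (σ : Fin 5 → Fin 3) : ℚ := (sel (σ 0) (sel (σ 1) (sel (σ 2) (sel (σ 3) (sel (σ 4) (mkRat 6250000000 6413326551) (mkRat 12500000 1420916661) (mkRat 12500000 1420916661)) 0 0) (sel (σ 3) (sel (σ 4) (mkRat 250000 314813871) (mkRat 50000 69749181) (mkRat 5000 69749181)) 0 0) (sel (σ 3) (sel (σ 4) (mkRat 250000 314813871) (mkRat 5000 69749181) (mkRat 50000 69749181)) 0 0)) (sel (σ 2) (sel (σ 3) (sel (σ 4) (mkRat 6250000 6413326551) (mkRat 12500 1420916661) (mkRat 12500 1420916661)) 0 0) (sel (σ 3) (sel (σ 4) (mkRat 25000 314813871) (mkRat 5000 69749181) (mkRat 500 69749181)) 0 0) (sel (σ 3) (sel (σ 4) (mkRat 2500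 314813871) (mkRat 50 69749181) (mkRat 500 69749181)) 0 0)) (sel (σ 2) (sel (σ 3) (sel (σ 4) (mkRat 6250000 6413326551) (mkRat 12500 1420916661) (mkRat 12500 1420916661)) 0 0) (sel (σ 3) (sel (σ 4) (mkRat 2500 314813871) (mkRat 500 69749181) (mkRat 50 69749181)) 0 0) (sel (σ 3) (sel (σ 4) (mkRat 25000 314813871) (mkRat 500 69749181) (mkRat 5000 69749181)) 0 0))) (sel (σ 1) (sel (σ 2) (sel (σ 3) (sel (σ 4) (mkRat 1250000 1420916661) (mkRat 2500 314813871) (mkRat 2500 314813871)) 0 0) (sel (σ 3) (sel (σ 4) (mkRat 2500 314813871) (mkRat 500 69749181) (mkRat 50 69749181)) 0 0) (sel (σ 3) (sel (σ 4) (mkRat 25 8508483) (mkRat 1 3770226) (mkRat 5 1885113)) 0 0)) (sel (σ 2) (sel (σ 3) (sel (σ 4) (mkRat 125000 1420916661) (mkRat 250 314813871) (mkRat 250 314813871)) 0 0) (sel (σ 3) (sel (σ 4) (mkRat 25000 314813871) (mkRat 5000 69749181) (mkRat 500 69749181)) 0 0) (sel (σ 3) (sel (σ 4) (mkRat 25 8508483) (mkRat 1 3770226) (mkRat 5 1885113)) 0 0)) (sel (σ 2) (sel (σ 3) (sel (σ 4) (mkRat 12500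 1420916661) (mkRat 25 314813871) (mkRat 25 314813871)) 0 0) (sel (σ 3) (sel (σ 4) (mkRat 250 314813871) (mkRat 50 69749181) (mkRat 5 69749181)) 0 0) (sel (σ 3) (sel (σ 4) (mkRat 25 8508483) (mkRat 1 3770226) (mkRat 5 1885113)) 0 0))) (sel (σ 1) (sel (σ 2) (sel (σ 3) (sel (σ 4) (mkRat 1250000 1420916661) (mkRat 2500 314813871) (mkRat 2500 314813871)) 0 0) (sel (σ 3) (sel (σ 4) (mkRat 25 8508483) (mkRat 5 1885113) (mkRat 1 3770226)) 0 0) (sel (σ 3) (sel (σ 4) (mkRat 2500 314813871) (mkRat 50 69749181) (mkRat 500 69749181)) 0 0)) (sel (σ 2) (sel (σ 3) (sel (σ 4) (mkRat 12500 1420916661) (mkRat 25 314813871) (mkRat 25 314813871)) 0 0) (sel (σ 3) (sel (σ 4) (mkRat 25 8508483) (mkRat 5 1885113) (mkRat 1 3770226)) 0 0) (sel (σ 3) (sel (σ 4) (mkRat 250 314813871) (mkRat 5 69749181) (mkRat 50 69749181)) 0 0)) (sel (σ 2) (sel (σ 3) (sel (σ 4) (mkRat 125000 1420916661) (mkRat 250 314813871) (mkRat 250 314813871)) 0 0) (sel (σ 3) (sel (σ 4) (mkRat 25 8508483) (mkRat 5 1885113) (mkRat 1 3770226))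 0 0) (sel (σ 3) (sel (σ 4) (mkRat 25000 314813871) (mkRat 500 69749181) (mkRat 5000 69749181)) 0 0))))

def A4240 (σ : Fin 5 → Fin 3) : ℚ := (sel (σ 0) (sel (σ 1) (sel (σ 2) (sel (σ 3) (sel (σ 4) (mkRat 7847500000 8051861079) (mkRat 78475000 8051861079) (mkRat 78475000 8051861079)) 0 0) (sel (σ 3) (sel (σ 4) (mkRat 614500 734565699) (mkRat 614500 734565699) (mkRat 61450 734565699)) 0 0) (sel (σ 3) (sel (σ 4) (mkRat 614500 734565699) (mkRat 61450 734565699) (mkRat 614500 734565699)) 0 0)) 0 0) (sel (σ 1) (sel (σ 2) (sel (σ 3) (sel (σ 4) (mkRat 7847500 8051861079) (mkRat 78475 8051861079) (mkRat 78475 8051861079)) 0 0) (sel (σ 3) (sel (σ 4) (mkRat 61450 734565699) (mkRat 61450 734565699) (mkRat 6145 734565699)) 0 0) (sel (σ 3) (sel (σ 4) (mkRat 6145 734565699) (mkRat 1229 1469131398) (mkRat 6145 734565699)) 0 0)) 0 0) (sel (σ 1) (sel (σ 2) (sel (σ 3) (sel (σ 4) (mkRat 7847500 8051861079) (mkRat 78475 8051861079) (mkRat 78475 8051861079)) 0 0) (sel (σ 3) (sel (σ 4) (mkRat 6145 734565699)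 (mkRat 6145 734565699) (mkRat 1229 1469131398)) 0 0) (sel (σ 3) (sel (σ 4) (mkRat 61450 734565699) (mkRat 6145 734565699) (mkRat 61450 734565699)) 0 0)) 0 0))

def A42012 (σ : Fin 5 → Fin 3) : ℚ := (sel (σ 0) (sel (σ 1) (sel (σ 2) (sel (σ 3) (sel (σ 4) (mkRat 1428365750000000 1466233956069273) (mkRat 621546500000 71973691629633) (mkRat 621546500000 71973691629633)) 0 0) (sel (σ 3) (sel (σ 4) (mkRat 1428365750000 1466233956069273) (mkRat 62154650000 71973691629633) (mkRat 6215465000 71973691629633)) 0 0) (sel (σ 3) (sel (σ 4) (mkRat 1428365750000 1466233956069273) (mkRat 6215465000 71973691629633) (mkRat 62154650000 71973691629633)) 0 0)) (sel (σ 2) (sel (σ 3) (sel (σ 4) (mkRat 310773250000 324854229787803) (mkRat 526506500 71973691629633) (mkRat 15000500 1945234908909)) 0 0) (sel (σ 3) (sel (σ 4) (mkRat 31077325000 324854229787803) (mkRat 5265065000 71973691629633) (mkRat 15000500 1945234908909)) 0 0) (sel (σ 3) (sel (σ 4) (mkRat 3107732500 324854229787803) (mkRat 52650650 71973691629633)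 (mkRat 15000500 1945234908909)) 0 0)) (sel (σ 2) (sel (σ 3) (sel (σ 4) (mkRat 310773250000 324854229787803) (mkRat 15000500 1945234908909) (mkRat 526506500 71973691629633)) 0 0) (sel (σ 3) (sel (σ 4) (mkRat 3107732500 324854229787803) (mkRat 15000500 1945234908909) (mkRat 52650650 71973691629633)) 0 0) (sel (σ 3) (sel (σ 4) (mkRat 31077325000 324854229787803) (mkRat 15000500 1945234908909) (mkRat 5265065000 71973691629633)) 0 0))) (sel (σ 1) (sel (σ 2) (sel (σ 3) (sel (σ 4) (mkRat 1560732500 1945234908909) (mkRat 596965 430980189399) (mkRat 43915 11648113227)) 0 0) (sel (σ 3) (sel (σ 4) (mkRat 156073250 1945234908909) (mkRat 5969650 430980189399) (mkRat 43915 11648113227)) 0 0) (sel (σ 3) (sel (σ 4) (mkRat 15607325 1945234908909) (mkRat 119393 861960378798) (mkRat 43915 11648113227)) 0 0)) (sel (σ 2) (sel (σ 3) (sel (σ 4) (mkRat 29848250 1945234908909) (mkRat 33229 457702331508) (mkRat 41215 430980189399)) 0 0) (sel (σ 3) (sel (σ 4) (mkRat 298482500 1945234908909) (mkRat 8307250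 114425582877) (mkRat 4121500 430980189399)) 0 0) (sel (σ 3) (sel (σ 4) (mkRat 2984825 1945234908909) (mkRat 33229 457702331508) (mkRat 412150 430980189399)) 0 0)) (sel (σ 2) (sel (σ 3) (sel (σ 4) (mkRat 219575 52573916457) (mkRat 8243 861960378798) (mkRat 10885 430980189399)) 0 0) (sel (σ 3) (sel (σ 4) (mkRat 219575 52573916457) (mkRat 412150 430980189399) (mkRat 108850 430980189399)) 0 0) (sel (σ 3) (sel (σ 4) (mkRat 219575 52573916457) (mkRat 41215 430980189399) (mkRat 1088500 430980189399)) 0 0))) (sel (σ 1) (sel (σ 2) (sel (σ 3) (sel (σ 4) (mkRat 1560732500 1945234908909) (mkRat 43915 11648113227) (mkRat 596965 430980189399)) 0 0) (sel (σ 3) (sel (σ 4) (mkRat 15607325 1945234908909) (mkRat 43915 11648113227) (mkRat 119393 861960378798)) 0 0) (sel (σ 3) (sel (σ 4) (mkRat 156073250 1945234908909) (mkRat 43915 11648113227) (mkRat 5969650 430980189399)) 0 0)) (sel (σ 2) (sel (σ 3) (sel (σ 4) (mkRat 219575 52573916457) (mkRat 10885 430980189399) (mkRat 8243 861960378798)) 0 0) (sel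 (σ 3) (sel (σ 4) (mkRat 219575 52573916457) (mkRat 1088500 430980189399) (mkRat 41215 430980189399)) 0 0) (sel (σ 3) (sel (σ 4) (mkRat 219575 52573916457) (mkRat 108850 430980189399) (mkRat 412150 430980189399)) 0 0)) (sel (σ 2) (sel (σ 3) (sel (σ 4) (mkRat 29848250 1945234908909) (mkRat 41215 430980189399) (mkRat 33229 457702331508)) 0 0) (sel (σ 3) (sel (σ 4) (mkRat 2984825 1945234908909) (mkRat 412150 430980189399) (mkRat 33229 457702331508)) 0 0) (sel (σ 3) (sel (σ 4) (mkRat 298482500 1945234908909) (mkRat 4121500 430980189399) (mkRat 8307250 114425582877)) 0 0))))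

def A42401 (σ : Fin 5 → Fin 3) : ℚ := (sel (σ 0) (sel (σ 1) (sel (σ 2) (sel (σ 3) (sel (σ 4) (mkRat 3923750000000 4033982400579) (mkRat 39237500000 4033982400579) (mkRat 39237500000 4033982400579)) 0 0) (sel (σ 3) (sel (σ 4) (mkRat 61450000 81536792589) (mkRat 61450000 81536792589) (mkRat 6145000 81536792589)) 0 0) (sel (σ 3) (sel (σ 4) (mkRat 61450000 81536792589) (mkRat 6145000 81536792589) (mkRat 61450000 81536792589)) 0 0)) (sel (σ 2) (sel (σ 3) (sel (σ 4) (mkRat 3923750000 4033982400579) (mkRat 39237500 4033982400579) (mkRat 39237500 4033982400579)) 0 0) (sel (σ 3) (sel (σ 4) (mkRat 6145000 81536792589) (mkRat 6145000 81536792589) (mkRat 614500 81536792589)) 0 0) (sel (σ 3) (sel (σ 4) (mkRat 614500 81536792589) (mkRat 61450 81536792589) (mkRat 614500 81536792589)) 0 0)) (sel (σ 2) (sel (σ 3) (sel (σ 4) (mkRat 3923750000 4033982400579) (mkRat 39237500 4033982400579) (mkRat 39237500 4033982400579)) 0 0) (sel (σ 3) (sel (σ 4) (mkRat 614500 81536792589) (mkRat 614500 81536792589)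 (mkRat 61450 81536792589)) 0 0) (sel (σ 3) (sel (σ 4) (mkRat 6145000 81536792589) (mkRat 614500 81536792589) (mkRat 6145000 81536792589)) 0 0))) (sel (σ 1) (sel (σ 2) (sel (σ 3) (sel (σ 4) (mkRat 784750000 893756579769) (mkRat 7847500 893756579769) (mkRat 7847500 893756579769)) 0 0) (sel (σ 3) (sel (σ 4) (mkRat 614500 81536792589) (mkRat 614500 81536792589) (mkRat 61450 81536792589)) 0 0) (sel (σ 3) (sel (σ 4) (mkRat 6145 2203697097) (mkRat 1229 4407394194) (mkRat 6145 2203697097)) 0 0)) (sel (σ 2) (sel (σ 3) (sel (σ 4) (mkRat 78475000 893756579769) (mkRat 784750 893756579769) (mkRat 784750 893756579769)) 0 0) (sel (σ 3) (sel (σ 4) (mkRat 6145000 81536792589) (mkRat 6145000 81536792589) (mkRat 614500 81536792589)) 0 0) (sel (σ 3) (sel (σ 4) (mkRat 6145 2203697097) (mkRat 1229 4407394194) (mkRat 6145 2203697097)) 0 0)) (sel (σ 2) (sel (σ 3) (sel (σ 4) (mkRat 7847500 893756579769) (mkRat 78475 893756579769) (mkRat 78475 893756579769)) 0 0) (sel (σ 3) (sel (σ 4) (mkRat 61450 81536792589)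 (mkRat 61450 81536792589) (mkRat 6145 81536792589)) 0 0) (sel (σ 3) (sel (σ 4) (mkRat 6145 2203697097) (mkRat 1229 4407394194) (mkRat 6145 2203697097)) 0 0))) (sel (σ 1) (sel (σ 2) (sel (σ 3) (sel (σ 4) (mkRat 784750000 893756579769) (mkRat 7847500 893756579769) (mkRat 7847500 893756579769)) 0 0) (sel (σ 3) (sel (σ 4) (mkRat 6145 2203697097) (mkRat 6145 2203697097) (mkRat 1229 4407394194)) 0 0) (sel (σ 3) (sel (σ 4) (mkRat 614500 81536792589) (mkRat 61450 81536792589) (mkRat 614500 81536792589)) 0 0)) (sel (σ 2) (sel (σ 3) (sel (σ 4) (mkRat 7847500 893756579769) (mkRat 78475 893756579769) (mkRat 78475 893756579769)) 0 0) (sel (σ 3) (sel (σ 4) (mkRat 6145 2203697097) (mkRat 6145 2203697097) (mkRat 1229 4407394194)) 0 0) (sel (σ 3) (sel (σ 4) (mkRat 61450 81536792589) (mkRat 6145 81536792589) (mkRat 61450 81536792589)) 0 0)) (sel (σ 2) (sel (σ 3) (sel (σ 4) (mkRat 78475000 893756579769) (mkRat 784750 893756579769) (mkRat 784750 893756579769)) 0 0) (sel (σ 3) (sel (σ 4) (mkRat 6145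 2203697097) (mkRat 6145 2203697097) (mkRat 1229 4407394194)) 0 0) (sel (σ 3) (sel (σ 4) (mkRat 6145000 81536792589) (mkRat 614500 81536792589) (mkRat 6145000 81536792589)) 0 0))))

def A420124 (σ : Fin 5 → Fin 3) : ℚ := (sel (σ 0) (sel (σ 1) (sel (σ 2) (sel (σ 3) (sel (σ 4) (mkRat 33168355540450000000 34123662859600190529) (mkRat 331683555404500000 34123662859600190529) (mkRat 331683555404500000 34123662859600190529)) 0 0) (sel (σ 3) (sel (σ 4) (mkRat 12874022829950000 14050920001011843159) (mkRat 12874022829950000 14050920001011843159) (mkRat 1287402282995000 14050920001011843159)) 0 0) (sel (σ 3) (sel (σ 4) (mkRat 12874022829950000 14050920001011843159) (mkRat 1287402282995000 14050920001011843159) (mkRat 12874022829950000 14050920001011843159)) 0 0)) (sel (σ 2) (sel (σ 3) (sel (σ 4) (mkRat 194653748750000 204333310536528087) (mkRat 1946537487500 204333310536528087) (mkRat 1946537487500 204333310536528087)) 0 0) (sel (σ 3) (sel (σ 4) (mkRat 7072716565000 84137245515040977) (mkRat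 7072716565000 84137245515040977) (mkRat 707271656500 84137245515040977)) 0 0) (sel (σ 3) (sel (σ 4) (mkRat 42444480500 4949249736178881) (mkRat 4244448050 4949249736178881) (mkRat 42444480500 4949249736178881)) 0 0)) (sel (σ 2) (sel (σ 3) (sel (σ 4) (mkRat 194653748750000 204333310536528087) (mkRat 1946537487500 204333310536528087) (mkRat 1946537487500 204333310536528087)) 0 0) (sel (σ 3) (sel (σ 4) (mkRat 42444480500 4949249736178881) (mkRat 42444480500 4949249736178881) (mkRat 4244448050 4949249736178881)) 0 0) (sel (σ 3) (sel (σ 4) (mkRat 7072716565000 84137245515040977) (mkRat 707271656500 84137245515040977) (mkRat 7072716565000 84137245515040977)) 0 0))) (sel (σ 1) (sel (σ 2) (sel (σ 3) (sel (σ 4) (mkRat 968635774000 1223552757703761) (mkRat 9686357740 1223552757703761) (mkRat 9686357740 1223552757703761)) 0 0) (sel (σ 3) (sel (σ 4) (mkRat 23476641950 503815841407431) (mkRat 23476641950 503815841407431) (mkRat 2347664195 503815841407431)) 0 0) (sel (σ 3) (sel (σ 4) (mkRat 408948155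 71973691629633) (mkRat 81789631 143947383259266) (mkRat 408948155 71973691629633)) 0 0)) (sel (σ 2) (sel (σ 3) (sel (σ 4) (mkRat 2189202775 143947383259266) (mkRat 87568111 575789533037064) (mkRat 87568111 575789533037064)) 0 0) (sel (σ 3) (sel (σ 4) (mkRat 56524677500 503815841407431) (mkRat 56524677500 503815841407431) (mkRat 5652467750 503815841407431)) 0 0) (sel (σ 3) (sel (σ 4) (mkRat 1229952235 1007631682814862) (mkRat 245990447 2015263365629724) (mkRat 1229952235 1007631682814862)) 0 0)) (sel (σ 2) (sel (σ 3) (sel (σ 4) (mkRat 5051737675 1223552757703761) (mkRat 202069507 4894211030815044) (mkRat 202069507 4894211030815044)) 0 0) (sel (σ 3) (sel (σ 4) (mkRat 1292017250 503815841407431) (mkRat 1292017250 503815841407431) (mkRat 129201725 503815841407431)) 0 0) (sel (σ 3) (sel (σ 4) (mkRat 1630868600 503815841407431) (mkRat 163086860 503815841407431) (mkRat 1630868600 503815841407431)) 0 0))) (sel (σ 1) (sel (σ 2) (sel (σ 3) (sel (σ 4) (mkRat 968635774000 1223552757703761) (mkRat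 9686357740 1223552757703761) (mkRat 9686357740 1223552757703761)) 0 0) (sel (σ 3) (sel (σ 4) (mkRat 408948155 71973691629633) (mkRat 408948155 71973691629633) (mkRat 81789631 143947383259266)) 0 0) (sel (σ 3) (sel (σ 4) (mkRat 23476641950 503815841407431) (mkRat 2347664195 503815841407431) (mkRat 23476641950 503815841407431)) 0 0)) (sel (σ 2) (sel (σ 3) (sel (σ 4) (mkRat 5051737675 1223552757703761) (mkRat 202069507 4894211030815044) (mkRat 202069507 4894211030815044)) 0 0) (sel (σ 3) (sel (σ 4) (mkRat 1630868600 503815841407431) (mkRat 1630868600 503815841407431) (mkRat 163086860 503815841407431)) 0 0) (sel (σ 3) (sel (σ 4) (mkRat 1292017250 503815841407431) (mkRat 129201725 503815841407431) (mkRat 1292017250 503815841407431)) 0 0)) (sel (σ 2) (sel (σ 3) (sel (σ 4) (mkRat 2189202775 143947383259266) (mkRat 87568111 575789533037064) (mkRat 87568111 575789533037064)) 0 0) (sel (σ 3) (sel (σ 4) (mkRat 1229952235 1007631682814862) (mkRat 1229952235 1007631682814862) (mkRat 245990447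 2015263365629724)) 0 0) (sel (σ 3) (sel (σ 4) (mkRat 56524677500 503815841407431) (mkRat 5652467750 503815841407431) (mkRat 56524677500 503815841407431)) 0 0))))

def A424012 (σ : Fin 5 → Fin 3) : ℚ := (sel (σ 0) (sel (σ 1) (sel (σ 2) (sel (σ 3) (sel (σ 4) (mkRat 6276594122950000000 6455828108573009019) (mkRat 13602021024500000 1430333173755696609) (mkRat 13602021024500000 1430333173755696609)) 0 0) (sel (σ 3) (sel (σ 4) (mkRat 6276594122950000 6455828108573009019) (mkRat 1360202102450000 1430333173755696609) (mkRat 136020210245000 1430333173755696609)) 0 0) (sel (σ 3) (sel (σ 4) (mkRat 6276594122950000 6455828108573009019) (mkRat 136020210245000 1430333173755696609) (mkRat 1360202102450000 1430333173755696609)) 0 0)) (sel (σ 2) (sel (σ 3) (sel (σ 4) (mkRat 1360202102450000 1430333173755696609) (mkRat 11061905304500 1430333173755696609) (mkRat 319565946500 38657653344748557)) 0 0) (sel (σ 3) (sel (σ 4) (mkRat 136020210245000 1430333173755696609) (mkRat 110619053045000 1430333173755696609)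 (mkRat 319565946500 38657653344748557)) 0 0) (sel (σ 3) (sel (σ 4) (mkRat 13602021024500 1430333173755696609) (mkRat 1106190530450 1430333173755696609) (mkRat 319565946500 38657653344748557)) 0 0)) (sel (σ 2) (sel (σ 3) (sel (σ 4) (mkRat 1360202102450000 1430333173755696609) (mkRat 319565946500 38657653344748557) (mkRat 11061905304500 1430333173755696609)) 0 0) (sel (σ 3) (sel (σ 4) (mkRat 13602021024500 1430333173755696609) (mkRat 319565946500 38657653344748557) (mkRat 1106190530450 1430333173755696609)) 0 0) (sel (σ 3) (sel (σ 4) (mkRat 136020210245000 1430333173755696609) (mkRat 319565946500 38657653344748557) (mkRat 110619053045000 1430333173755696609)) 0 0))) (sel (σ 1) (sel (σ 2) (sel (σ 3) (sel (σ 4) (mkRat 6854676824500 8564869303926327) (mkRat 12805389745 8564869303926327) (mkRat 950816095 231482954160171)) 0 0) (sel (σ 3) (sel (σ 4) (mkRat 685467682450 8564869303926327) (mkRat 128053897450 8564869303926327) (mkRat 950816095 231482954160171)) 0 0) (sel (σ 3) (sel (σ 4) (mkRat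 68546768245 8564869303926327) (mkRat 2561077949 17129738607852654) (mkRat 950816095 231482954160171)) 0 0)) (sel (σ 2) (sel (σ 3) (sel (σ 4) (mkRat 128053897450 8564869303926327) (mkRat 11808969449 154630613378994228) (mkRat 864434995 8564869303926327)) 0 0) (sel (σ 3) (sel (σ 4) (mkRat 1280538974500 8564869303926327) (mkRat 2952242362250 38657653344748557) (mkRat 86443499500 8564869303926327)) 0 0) (sel (σ 3) (sel (σ 4) (mkRat 12805389745 8564869303926327) (mkRat 11808969449 154630613378994228) (mkRat 8644349950 8564869303926327)) 0 0)) (sel (σ 2) (sel (σ 3) (sel (σ 4) (mkRat 950816095 231482954160171) (mkRat 172886999 17129738607852654) (mkRat 227753305 8564869303926327)) 0 0) (sel (σ 3) (sel (σ 4) (mkRat 950816095 231482954160171) (mkRat 8644349950 8564869303926327) (mkRat 2277533050 8564869303926327)) 0 0) (sel (σ 3) (sel (σ 4) (mkRat 950816095 231482954160171) (mkRat 864434995 8564869303926327) (mkRat 22775330500 8564869303926327)) 0 0))) (sel (σ 1) (sel (σ 2) (sel (σ 3) (sel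 (σ 4) (mkRat 6854676824500 8564869303926327) (mkRat 950816095 231482954160171) (mkRat 12805389745 8564869303926327)) 0 0) (sel (σ 3) (sel (σ 4) (mkRat 68546768245 8564869303926327) (mkRat 950816095 231482954160171) (mkRat 2561077949 17129738607852654)) 0 0) (sel (σ 3) (sel (σ 4) (mkRat 685467682450 8564869303926327) (mkRat 950816095 231482954160171) (mkRat 128053897450 8564869303926327)) 0 0)) (sel (σ 2) (sel (σ 3) (sel (σ 4) (mkRat 950816095 231482954160171) (mkRat 227753305 8564869303926327) (mkRat 172886999 17129738607852654)) 0 0) (sel (σ 3) (sel (σ 4) (mkRat 950816095 231482954160171) (mkRat 22775330500 8564869303926327) (mkRat 864434995 8564869303926327)) 0 0) (sel (σ 3) (sel (σ 4) (mkRat 950816095 231482954160171) (mkRat 2277533050 8564869303926327) (mkRat 8644349950 8564869303926327)) 0 0)) (sel (σ 2) (sel (σ 3) (sel (σ 4) (mkRat 128053897450 8564869303926327) (mkRat 864434995 8564869303926327) (mkRat 11808969449 154630613378994228)) 0 0) (sel (σ 3) (sel (σ 4) (mkRat 12805389745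 8564869303926327) (mkRat 8644349950 8564869303926327) (mkRat 11808969449 154630613378994228)) 0 0) (sel (σ 3) (sel (σ 4) (mkRat 1280538974500 8564869303926327) (mkRat 86443499500 8564869303926327) (mkRat 2952242362250 38657653344748557)) 0 0))))

def A4240124 (σ : Fin 5 → Fin 3) : ℚ := (sel (σ 0) (sel (σ 1) (sel (σ 2) (sel (σ 3) (sel (σ 4) (mkRat 3946284292855550000000 4060715880292422672951) (mkRat 39462842928555500000 4060715880292422672951) (mkRat 39462842928555500000 4060715880292422672951)) 0 0) (sel (σ 3) (sel (σ 4) (mkRat 1607010362564050000 1672059480120409335921) (mkRat 1607010362564050000 1672059480120409335921) (mkRat 160701036256405000 1672059480120409335921)) 0 0) (sel (σ 3) (sel (σ 4) (mkRat 1607010362564050000 1672059480120409335921) (mkRat 160701036256405000 1672059480120409335921) (mkRat 1607010362564050000 1672059480120409335921)) 0 0)) (sel (σ 2) (sel (σ 3) (sel (σ 4) (mkRat 1355968576250000 1430333173755696609) (mkRat 13559685762500 1430333173755696609) (mkRat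 13559685762500 1430333173755696609)) 0 0) (sel (σ 3) (sel (σ 4) (mkRat 861544011035000 10012332216289876263) (mkRat 861544011035000 10012332216289876263) (mkRat 86154401103500 10012332216289876263)) 0 0) (sel (σ 3) (sel (σ 4) (mkRat 88440505251500 10012332216289876263) (mkRat 8844050525150 10012332216289876263) (mkRat 88440505251500 10012332216289876263)) 0 0)) (sel (σ 2) (sel (σ 3) (sel (σ 4) (mkRat 1355968576250000 1430333173755696609) (mkRat 13559685762500 1430333173755696609) (mkRat 13559685762500 1430333173755696609)) 0 0) (sel (σ 3) (sel (σ 4) (mkRat 88440505251500 10012332216289876263) (mkRat 88440505251500 10012332216289876263) (mkRat 8844050525150 10012332216289876263)) 0 0) (sel (σ 3) (sel (σ 4) (mkRat 861544011035000 10012332216289876263) (mkRat 86154401103500 10012332216289876263) (mkRat 861544011035000 10012332216289876263)) 0 0))) (sel (σ 1) (sel (σ 2) (sel (σ 3) (sel (σ 4) (mkRat 6767316088000 8564869303926327) (mkRat 67673160880 8564869303926327) (mkRat 67673160880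 8564869303926327)) 0 0) (sel (σ 3) (sel (σ 4) (mkRat 2829005918050 59954085127484289) (mkRat 2829005918050 59954085127484289) (mkRat 282900591805 59954085127484289)) 0 0) (sel (σ 3) (sel (σ 4) (mkRat 350025009115 59954085127484289) (mkRat 70005001823 119908170254968578) (mkRat 350025009115 59954085127484289)) 0 0)) (sel (σ 2) (sel (σ 3) (sel (σ 4) (mkRat 721286482857275 48631327907693684706) (mkRat 28851459314291 194525311630774738824) (mkRat 28851459314291 194525311630774738824)) 0 0) (sel (σ 3) (sel (σ 4) (mkRat 1125063468537500 10012332216289876263) (mkRat 1125063468537500 10012332216289876263) (mkRat 112506346853750 10012332216289876263)) 0 0) (sel (σ 3) (sel (σ 4) (mkRat 24608929976455 20024664432579752526) (mkRat 4921785995291 40049328865159505052) (mkRat 24608929976455 20024664432579752526)) 0 0)) (sel (σ 2) (sel (σ 3) (sel (σ 4) (mkRat 591573205325 145602778166747559) (mkRat 23662928213 582411112666990236) (mkRat 23662928213 582411112666990236)) 0 0) (sel (σ 3) (sel (σ 4)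 (mkRat 153673595050 59954085127484289) (mkRat 153673595050 59954085127484289) (mkRat 15367359505 59954085127484289)) 0 0) (sel (σ 3) (sel (σ 4) (mkRat 196066536700 59954085127484289) (mkRat 19606653670 59954085127484289) (mkRat 196066536700 59954085127484289)) 0 0))) (sel (σ 1) (sel (σ 2) (sel (σ 3) (sel (σ 4) (mkRat 6767316088000 8564869303926327) (mkRat 67673160880 8564869303926327) (mkRat 67673160880 8564869303926327)) 0 0) (sel (σ 3) (sel (σ 4) (mkRat 350025009115 59954085127484289) (mkRat 350025009115 59954085127484289) (mkRat 70005001823 119908170254968578)) 0 0) (sel (σ 3) (sel (σ 4) (mkRat 2829005918050 59954085127484289) (mkRat 282900591805 59954085127484289) (mkRat 2829005918050 59954085127484289)) 0 0)) (sel (σ 2) (sel (σ 3) (sel (σ 4) (mkRat 591573205325 145602778166747559) (mkRat 23662928213 582411112666990236) (mkRat 23662928213 582411112666990236)) 0 0) (sel (σ 3) (sel (σ 4) (mkRat 196066536700 59954085127484289) (mkRat 196066536700 59954085127484289) (mkRat 19606653670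 59954085127484289)) 0 0) (sel (σ 3) (sel (σ 4) (mkRat 153673595050 59954085127484289) (mkRat 15367359505 59954085127484289) (mkRat 153673595050 59954085127484289)) 0 0)) (sel (σ 2) (sel (σ 3) (sel (σ 4) (mkRat 721286482857275 48631327907693684706) (mkRat 28851459314291 194525311630774738824) (mkRat 28851459314291 194525311630774738824)) 0 0) (sel (σ 3) (sel (σ 4) (mkRat 24608929976455 20024664432579752526) (mkRat 24608929976455 20024664432579752526) (mkRat 4921785995291 40049328865159505052)) 0 0) (sel (σ 3) (sel (σ 4) (mkRat 1125063468537500 10012332216289876263) (mkRat 112506346853750 10012332216289876263) (mkRat 1125063468537500 10012332216289876263)) 0 0))))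

lemma hA4 : step' wq (dirac g0) 4 = A4 := funext (by decide +kernel)

lemma hA42 : step' wq A4 2 = A42 := funext (by decide +kernel)

lemma hA420 : step' wq A42 0 = A420 := funext (by decide +kernel)

lemma hA424 : step' wq A42 4 = A424 := funext (by decide +kernel)

lemma hA4201 : step' wq A420 1 = A4201 := funext (by decide +kernel)

lemma hA4240 : step' wq A424 0 = A4240 := funext (by decide +kernel)

lemma hA42012 : step' wq A4201 2 = A42012 := funext (by decide +kernel)

lemma hA42401 : step' wq A4240 1 = A42401 := funext (by decide +kernel)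

lemma hA420124 : step' wq A42012 4 = A420124 := funext (by decide +kernel)

lemma hA424012 : step' wq A42401 2 = A424012 := funext (by decide +kernel)

lemma hA4240124 : step' wq A424012 4 = A4240124 := funext (by decide +kernel)


lemma sum_wq : ∑ τ, wq τ = (31012632 : ℚ) := by decide +kernel

lemma sum_A : ∑ τ, A4240124 τ = (1 : ℚ) := by decide +kernel

lemma sum_B : ∑ τ, A420124 τ = (1 : ℚ) := by decide +kernel

lemma main_ineq : ∑ σ, |A420124 σ - wq σ / (31012632 : ℚ)| < ∑ σ, |A4240124 σ - wq σ / (31012632 : ℚ)| := by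
  decide +kernel

lemma law'_A : law' wq g0 [4, 2, 4, 0, 1, 2, 4] = A4240124 := by
  show step' wq (step' wq (step' wq (step' wq (step' wq (step' wq (step' wq
    (dirac g0) 4) 2) 4) 0) 1) 2) 4 = _
  rw [hA4, hA42, hA424, hA4240, hA42401, hA424012, hA4240124]

lemma law'_B : law' wq g0 [4, 2, 0, 1, 2, 4] = A420124 := by
  show step' wq (step' wq (step' wq (step' wq (step' wq (step' wq
    (dirac g0) 4) 2) 0) 1) 2) 4 = _
  rw [hA4, hA42, hA420, hA4201, hA42012, hA420124]

lemma weight_eq : (pottsWeight G5 (Real.log 10) : (Fin 5 → Fin 3) → ℝ) =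
    fun σ => ((wq σ : ℚ) : ℝ) := by
  funext σ
  unfold pottsWeight wq
  rw [mono_G5, mul_comm, ← Real.log_pow, Real.exp_log (by positivity)]
  push_cast
  rfl

lemma sum_weight : ∑ τ : Fin 5 → Fin 3, pottsWeight G5 (Real.log 10) τ = (31012632 : ℝ) := by
  rw [weight_eq, ← Rat.cast_sum, sum_wq]
  norm_num

lemma tv_of (l : List (Fin 5)) (A : (Fin 5 → Fin 3) → ℚ) (hl : law' wq g0 l = A)
    (hA : ∑ τ, A τ = 1) :
    tvDist (law (pottsWeight G5 (Real.log 10)) g0 l) (gibbs (pottsWeight G5 (Real.log 10))) =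
      ((((∑ σ, |A σ - wq σ / (31012632 : ℚ)|) / 2 : ℚ)) : ℝ) := by
  have hne : ∑ τ : Fin 5 → Fin 3, pottsWeight G5 (Real.log 10) τ ≠ 0 := by
    rw [sum_weight]; norm_num
  have h1 : law (pottsWeight G5 (Real.log 10)) g0 l = fun σ => ((A σ : ℚ) : ℝ) := by
    rw [law_eq _ hne, weight_eq, law'_cast, hl]
  have h2 : gibbs (pottsWeight G5 (Real.log 10)) =
      fun σ : Fin 5 → Fin 3 => (((wq σ / (31012632 : ℚ)) : ℚ) : ℝ) := by
    funext σ
    unfold gibbs
    rw [sum_weight, weight_eq]
    push_cast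
    rfl
  rw [h1, h2, tvDist_eq]
  · push_cast
    rfl
  · rw [← Rat.cast_sum, ← Rat.cast_sum, hA, ← Finset.sum_div, sum_wq]
    norm_num

/-- **Result.** The censoring inequality fails for the ferromagnetic three-state Potts model: for
`β = log 10 > 0`, the connected graph `G5` on five vertices (edges 01, 02, 03, 12, 13, 24, 34), the
site sequence `v = (4,2,4,0,1,2,4)` and its censoring `w = (4,2,0,1,2,4)` (one update skipped), both
started from the all-green configuration, the censored law is strictly closer to the Potts measure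
in total variation. -/
theorem result :
    0 < Real.log 10 ∧
    (∀ a b : Fin 5, G5.Adj a b ↔ (a, b) ∈ ({(0, 1), (0, 2), (0, 3), (1, 2), (1, 3), (2, 4), (3, 4)}
      : Set (Fin 5 × Fin 5)) ∨ (b, a) ∈ ({(0, 1), (0, 2), (0, 3), (1, 2), (1, 3), (2, 4), (3, 4)}
      : Set (Fin 5 × Fin 5))) ∧
    List.Sublist [4, 2, 0, 1, 2, 4] [(4 : Fin 5), 2, 4, 0, 1, 2, 4] ∧
    tvDist (law (pottsWeight G5 (Real.log 10)) (fun _ => (0 : Fin 3)) [4, 2, 0, 1, 2, 4])
        (gibbs (pottsWeight G5 (Real.log 10))) <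
      tvDist (law (pottsWeight G5 (Real.log 10)) (fun _ => (0 : Fin 3)) [4, 2, 4, 0, 1, 2, 4])
        (gibbs (pottsWeight G5 (Real.log 10))) ∧
    ¬ (∀ (n : ℕ) (G : SimpleGraph (Fin n)) [DecidableRel G.Adj] (β : ℝ) (v w : List (Fin n)),
      0 < β → List.Sublist w v →
        tvDist (law (pottsWeight G β) (fun _ => (0 : Fin 3)) v) (gibbs (pottsWeight G β)) ≤
        tvDist (law (pottsWeight G β) (fun _ => (0 : Fin 3)) w) (gibbs (pottsWeight G β))) := by
  have hlog : 0 < Real.log 10 := Real.log_pos (by norm_num)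
  have hsub : List.Sublist [4, 2, 0, 1, 2, 4] [(4 : Fin 5), 2, 4, 0, 1, 2, 4] := by decide
  have hlt : tvDist (law (pottsWeight G5 (Real.log 10)) (fun _ => (0 : Fin 3)) [4, 2, 0, 1, 2, 4])
        (gibbs (pottsWeight G5 (Real.log 10))) <
      tvDist (law (pottsWeight G5 (Real.log 10)) (fun _ => (0 : Fin 3)) [4, 2, 4, 0, 1, 2, 4])
        (gibbs (pottsWeight G5 (Real.log 10))) := by
    have hA := tv_of [4, 2, 4, 0, 1, 2, 4] A4240124 law'_A sum_A
    have hB := tv_of [4, 2, 0, 1, 2, 4] A420124 law'_B sum_B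
    unfold g0 at hA hB
    rw [hA, hB, Rat.cast_lt]
    exact div_lt_div_of_pos_right main_ineq (by norm_num)
  refine ⟨hlog, ?_, hsub, hlt, ?_⟩
  · intro a b
    have : ∀ a b : Fin 5, G5.Adj a b ↔
      ((a, b) ∈ [((0 : Fin 5), (1 : Fin 5)), (0, 2), (0, 3), (1, 2), (1, 3), (2, 4), (3, 4)] ∨
       (b, a) ∈ [((0 : Fin 5), (1 : Fin 5)), (0, 2), (0, 3), (1, 2), (1, 3), (2, 4), (3, 4)]) := by
      decide
    rw [this a b]
    simp only [List.mem_cons, List.not_mem_nil, or_false, Set.mem_insert_iff,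
      Set.mem_singleton_iff]
  · intro h
    exact absurd hlt (not_lt.2 (h 5 G5 (Real.log 10) _ _ hlog hsub))

end Pool.Agent.Results.MP_82263f_pr.CensoringFails
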